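import Mathlib
import Pool.Agent.Lib.MP_0828a1_co.Defs
import Pool.Agent.Lib.MP_0828a1_co.Deg3
import Pool.Agent.Lib.MP_0828a1_co.UK.Six

namespace Pool.Agent.Results.MP_0828a1_co.SmallK

open Pool.Agent.Lib.MP_0828a1_co

/-- For `k ≥ 4` put `N = ⌊(3k+4)/2⌋`. On all of `D_k` if `k = 4, 5, 6`, and on the part of `D_k`
cut out by `(N-10) x ≤ 5 y` if `k ≥ 7`, the supremum `z_k(x,y)` is attained and equals the largest
of `1/(kx+y)`, `2/(Nx+3y)` and `3/((2k+4)x+6y)`. -/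
theorem result (k : ℕ) (hk : 4 ≤ k) (x y : ℝ) (hy : 0 ≤ y) (hx : -y / k < x)
    (h7 : 7 ≤ k → ((((3 * k + 4) / 2 : ℕ) : ℝ) - 10) * x ≤ 5 * y) :
    IsGreatest (ratios k x y) (max (1 / (k * x + y))
      (max (2 / ((((3 * k + 4) / 2 : ℕ) : ℝ) * x + 3 * y)) (3 / ((2 * k + 4) * x + 6 * y)))) := by
  by_cases h6 : k = 6
  · subst h6
    have t := UK.sixUniform x y hy (by exact_mod_cast hx)
    norm_num only at t ⊢
    exact t
  have t := UK.twoFacets k hk x y hy hx (fun e => absurd e h6) h7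
  obtain ⟨r, rfl⟩ : ∃ r, k = r + 1 := ⟨k - 1, by omega⟩
  obtain ⟨E, u, -, c, g⟩ := ex_six (r := r) (by omega)
  have hr : (3 : ℝ) ≤ r := by exact_mod_cast (show 3 ≤ r by omega)
  have hkx : 0 < (r + 1 : ℝ) * x + y := by
    push_cast at hx
    rw [div_lt_iff₀ (by linarith)] at hx
    linarith
  have h1 : ((2 * r + 6 : ℕ) : ℝ) ≤ (r + 1) * E.card := by exact_mod_cast card_le_mul u
  have hd : 0 < x * ((2 * r + 6 : ℕ) : ℝ) + y * E.card := by
    have h2 : (0 : ℝ) < ((2 * r + 6 : ℕ) : ℝ) := by positivity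
    have h3 : (0 : ℝ) < r + 1 := by linarith
    have h4 := mul_le_mul_of_nonneg_left h1 hy
    have h5 := mul_pos hkx h2
    have : 0 < (r + 1 : ℝ) * (x * ((2 * r + 6 : ℕ) : ℝ) + y * E.card) := by nlinarith
    exact (mul_pos_iff_of_pos_left h3).1 this
  have l0 : 3 / ((2 * ((r + 1 : ℕ) : ℝ) + 4) * x + 6 * y) ≤
      (domNumber E : ℝ) / (x * ((2 * r + 6 : ℕ) : ℝ) + y * E.card) := by
    refine div_le_div₀ (by positivity) (by exact_mod_cast g) hd ?_
    have h6 : (E.card : ℝ) ≤ 6 := by exact_mod_cast c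
    have := mul_le_mul_of_nonneg_left h6 hy
    push_cast
    linarith
  rwa [← max_assoc, max_eq_left (l0.trans (t.2 ⟨_, E, by omega, u, rfl⟩))]

end Pool.Agent.Results.MP_0828a1_co.SmallK
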