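import Mathlib
import Pool.Agent.Lib.MP_0828a1_co.Defs3
import Pool.Agent.Lib.MP_0828a1_co.StabD
import Pool.Agent.Lib.MP_0828a1_co.UK.Two

namespace Pool.Agent.Results.MP_0828a1_co.MaxDegreeThree

open Pool.Agent.Lib.MP_0828a1_co

/-- For `k ≥ 4` put `N = ⌊(3k+4)/2⌋`. Over the hypergraphs of maximum degree at most three the
supremum of `γ/(xn+ym)` is attained at every point of `D_k` and equals the largest of `1/(kx+y)`,
`2/(Nx+3y)` and `3/((2k+4)x+6y)`. -/
theorem result (k : ℕ) (hk : 4 ≤ k) (x y : ℝ) (hy : 0 ≤ y) (hx : -y / k < x) :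
    IsGreatest (ratios3 k x y) (max (1 / (k * x + y))
      (max (2 / ((((3 * k + 4) / 2 : ℕ) : ℝ) * x + 3 * y)) (3 / ((2 * k + 4) * x + 6 * y)))) := by
  have TF := fun x y hy hx h6 h7 => (UK.twoFacets k hk x y hy hx h6 h7).2
  obtain ⟨r, rfl⟩ : ∃ r, k = r + 1 := ⟨k - 1, by omega⟩
  set ρ : ℕ := (3 * r + 1) / 2 with hρ
  rw [show (3 * (r + 1) + 4) / 2 = ρ + 3 by omega] at TF ⊢
  have hρ1 : 3 * (r : ℝ) ≤ 2 * ρ := by exact_mod_cast (show 3 * r ≤ 2 * ρ by omega)
  have hρ2 : 2 * (ρ : ℝ) ≤ 3 * r + 1 := by exact_mod_cast (show 2 * ρ ≤ 3 * r + 1 by omega)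
  have hr3 : (3 : ℝ) ≤ r := by exact_mod_cast (show 3 ≤ r by omega)
  push_cast at hx TF ⊢
  have hkx : 0 < (r + 1 : ℝ) * x + y := by
    rw [div_lt_iff₀ (by linarith)] at hx; linarith
  have hden : ∀ (n : ℕ) (E : Finset (Finset (Fin n))), 0 < n → UniformNoIsolated (r + 1) E →
      0 < x * n + y * E.card := fun n E hn h => by
    have h1 : (n : ℝ) ≤ (r + 1) * E.card := by exact_mod_cast card_le_mul h
    have h2 : (0 : ℝ) < n := by exact_mod_cast hn
    have h3 : (0 : ℝ) < r + 1 := by linarith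
    have h4 := mul_le_mul_of_nonneg_left h1 hy
    have h5 := mul_pos hkx h2
    have : 0 < (r + 1 : ℝ) * (x * n + y * E.card) := by nlinarith
    exact (mul_pos_iff_of_pos_left h3).1 this
  have up : ∀ t ∈ ratios3 (r + 1) x y, t ≤ max (1 / ((r + 1 : ℝ) * x + y))
      (max (2 / ((ρ + 3 : ℝ) * x + 3 * y)) (3 / ((2 * (r + 1 : ℝ) + 4) * x + 6 * y))) := by
    rintro _ ⟨n, E, hn, u, h3, rfl⟩
    have cone : ∀ x y : ℝ, 0 ≤ y → r ≤ 4 ∨ x ≤ 0 ∨ (2 * r - ρ - 1) * x ≤ y →
        (r = 5 → x ≤ 3 * y) ∧ (6 ≤ r → (ρ + 3 - 10 : ℝ) * x ≤ 5 * y) := fun x y hy h => by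
      refine ⟨fun e => ?_, fun e => ?_⟩
      · have e1 : (r : ℝ) = 5 := by exact_mod_cast (show r = 5 by omega)
        have e2 : (ρ : ℝ) = 8 := by exact_mod_cast (show ρ = 8 by omega)
        rw [e1, e2] at h
        rcases h with h | h | h
        exacts [by omega, by linarith, by linarith]
      · have e1 : (6 : ℝ) ≤ r := by exact_mod_cast (show 6 ≤ r by omega)
        rcases le_total x 0 with h0 | h0
        · nlinarith
        · rcases h with h | h | h
          exacts [by omega, by nlinarith, by nlinarith]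
    by_cases hc : r ≤ 4 ∨ x ≤ 0 ∨ (2 * r - ρ - 1) * x ≤ y
    · exact (TF x y hy hx (cone x y hy hc).1 (cone x y hy hc).2 ⟨n, E, hn, u, rfl⟩).trans
        (max_le_max le_rfl (le_max_left _ _))
    push Not at hc
    obtain ⟨r5, x0, hc⟩ := hc
    have hr : (5 : ℝ) ≤ r := by exact_mod_cast r5
    have c0 : (0 : ℝ) ≤ 3 * ρ - 4 * r - 3 := by
      have : (4 * r + 3 : ℝ) ≤ 3 * ρ := by exact_mod_cast (show 4 * r + 3 ≤ 3 * ρ by omega)
      linarith
    have hd := hden n E hn u
    obtain ⟨G, F, g1, g2, g3, g4, g5⟩ := dom_sys (by omega) u h3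
    have g6 : ∀ i, (F i ∩ Finset.univ).card ≤ 3 := fun i => (Finset.inter_univ (F i)).symm ▸ g3 i
    have a2 := weight_count g2 Finset.univ (fun _ => 1) (by simp) 3 fun i => by
      simpa using Int.ofNat_le.2 (g6 i)
    simp only [Finset.card_univ, Fintype.card_coe, Finset.sum_const, nsmul_eq_mul, mul_one] at a2
    have b0 : (domNumber E : ℝ) ≤ tau F Finset.univ := by exact_mod_cast g4
    have b1 : (6 * (ρ - r) * domNumber E : ℝ) ≤
        3 * NN F Finset.univ + (3 * ρ - 4 * r) * G.card := by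
      refine (mul_le_mul_of_nonneg_left b0 (by linarith)).trans ?_
      rcases Nat.mod_two_eq_zero_or_one r with e | e
      · have a1 := deg_bound (by omega) g2 Finset.univ g6
        rw [Finset.card_univ, Fintype.card_coe] at a1
        have a3 : (6 * r * tau F Finset.univ : ℝ) ≤ 6 * NN F Finset.univ + r * G.card := by
          exact_mod_cast a1
        rw [show (ρ : ℝ) = 3 * r / 2 by
          have : 2 * (ρ : ℝ) = 3 * r := by exact_mod_cast (show 2 * ρ = 3 * r by omega)
          linarith]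
        linarith
      · have a1 := odd_bound r5 e g2 Finset.univ g6
        rw [Finset.card_univ, Fintype.card_coe] at a1
        rw [show (ρ : ℝ) = (3 * r + 1) / 2 by
          have : 2 * (ρ : ℝ) = 3 * r + 1 := by exact_mod_cast (show 2 * ρ = 3 * r + 1 by omega)
          linarith]
        linarith
    have b2 : (r * G.card : ℝ) ≤ 3 * NN F Finset.univ := by exact_mod_cast a2
    have b3 : (G.card : ℝ) ≤ E.card := by exact_mod_cast g1
    have b4 : (NN F Finset.univ + G.card : ℝ) ≤ n := by exact_mod_cast g5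
    have L : (6 * (ρ - r) * domNumber E : ℝ) ≤ 3 * n + (3 * ρ - 4 * r - 3) * E.card := by
      nlinarith [mul_le_mul_of_nonneg_left b3 c0]
    have L0 : ((2 * r + 6) * domNumber E : ℝ) ≤ 3 * n := by
      refine le_of_mul_le_mul_left (a := (6 * (ρ - r) : ℝ)) ?_ (by linarith)
      nlinarith [mul_le_mul_of_nonneg_left b1 (show (0 : ℝ) ≤ 2 * r + 6 by linarith),
        mul_le_mul_of_nonneg_left b2 c0,
        mul_le_mul_of_nonneg_left b4 (show (0 : ℝ) ≤ ρ - r by linarith)]
    refine le_max_of_le_right ?_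
    by_cases h6 : 3 * y ≤ (3 * ρ - 4 * r - 3) * x
    · refine le_max_of_le_right ?_
      rw [div_le_div_iff₀ hd (by positivity)]
      rcases c0.eq_or_lt with e | e
      · obtain rfl : y = 0 := by rw [← e] at h6; linarith
        nlinarith
      · refine le_of_mul_le_mul_left ?_ e
        nlinarith [mul_le_mul_of_nonneg_left L0 (sub_nonneg.2 h6), mul_le_mul_of_nonneg_left L hy]
    have n0 : (0 : ℝ) < n := by exact_mod_cast hn
    have m0 : (0 : ℝ) ≤ E.card := by positivity
    have p1 : (0 : ℝ) < 2 * r - ρ - 1 := by linarith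
    have cn := cone 1 _ p1.le (.inr (.inr (mul_one _).le))
    have L1 := TF 1 _ p1.le (lt_of_le_of_lt (div_nonpos_of_nonpos_of_nonneg
      (by linarith) (by linarith)) one_pos) cn.1 cn.2 ⟨n, E, hn, u, rfl⟩
    rw [max_eq_right (by rw [div_le_div_iff₀ (by positivity) (by positivity)]; linarith),
      div_le_div_iff₀ (by positivity) (by positivity)] at L1
    refine le_max_of_le_left ?_
    rw [div_le_div_iff₀ hd (by positivity)]
    refine le_of_mul_le_mul_left (a := (10 * r - 6 * ρ : ℝ)) ?_ (by linarith)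
    nlinarith [mul_le_mul_of_nonneg_left L (sub_nonneg.2 hc.le),
      mul_le_mul_of_nonneg_left L1 (sub_nonneg.2 (not_le.1 h6).le)]
  have mem : ∀ (n c d : ℕ) (E : Finset (Finset (Fin n))), 0 < n → UniformNoIsolated (r + 1) E →
      (∀ v, (E.filter fun e => v ∈ e).card ≤ 3) → E.card ≤ d → c ≤ domNumber E → ∀ t : ℝ,
      t = c / (n * x + d * y) → (∀ s ∈ ratios3 (r + 1) x y, s ≤ t) → t ∈ ratios3 (r + 1) x y :=
    fun n c d E hn u h3 hd hc t ht hs => ⟨n, E, hn, u, h3, le_antisymm (ht ▸ div_le_div₀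
      (by positivity) (by exact_mod_cast hc) (hden n E hn u) (by
        nlinarith [mul_le_mul_of_nonneg_left (show (E.card : ℝ) ≤ d by exact_mod_cast hd) hy]))
      (hs _ ⟨n, E, hn, u, h3, rfl⟩)⟩
  refine ⟨?_, up⟩
  rcases max_choice (1 / ((r + 1 : ℝ) * x + y)) (max (2 / ((ρ + 3 : ℝ) * x + 3 * y))
    (3 / ((2 * (r + 1 : ℝ) + 4) * x + 6 * y))) with e | e
  · obtain ⟨E, u, c, g⟩ := ex_single (r + 1) (by omega)
    exact mem _ 1 1 E (by omega) u (fun v => (Finset.card_filter_le _ _).trans (by omega)) c.le g _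
      (by rw [e]; push_cast; ring) up
  rcases max_choice (2 / ((ρ + 3 : ℝ) * x + 3 * y)) (3 / ((2 * (r + 1 : ℝ) + 4) * x + 6 * y))
    with e' | e'
  · obtain ⟨E, u, c, g⟩ := ex_triangle r ρ (by omega) (by omega) (by omega)
    exact mem _ 2 3 E (by omega) u (fun v => (Finset.card_filter_le _ _).trans c.le) c.le g _
      (by rw [e, e']; push_cast; ring) up
  · obtain ⟨E, u, d, c, g⟩ := ex_six (r := r) (by omega)
    exact mem _ 3 6 E (by omega) u d c g _ (by rw [e, e']; push_cast; ring) up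

end Pool.Agent.Results.MP_0828a1_co.MaxDegreeThree
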